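import Pool.Agent.Q297.Lacunary

open MeasureTheory ProbabilityTheory Filter Topology

namespace Pool.Agent.Results.MP_78f804_pr.NoDensity

/-- `Σ(A)`: all sums `∑_{a ∈ F} a` over finite nonempty `F ⊆ A`. -/
def subsetSums (A : Set ℕ) : Set ℕ :=
  {s | ∃ F : Finset ℕ, F.Nonempty ∧ (F : Set ℕ) ⊆ A ∧ ∑ a ∈ F, a = s}

/-- The random set `A = {i ≥ 1 : ω ∈ E i}` attached to a family of events `E i = {i ∈ A}`. -/
def randomSet {Ω : Type*} (E : ℕ → Set Ω) (ω : Ω) : Set ℕ := {i | 1 ≤ i ∧ ω ∈ E i}

/-- The events `E i = {i ∈ A}` are (measurable and) mutually independent and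
`P(E i) = min {1, 1 / (i log 2)}` for every `i ≥ 1`. -/
structure IsLacunaryModel {Ω : Type*} [MeasurableSpace Ω] (μ : Measure Ω) (E : ℕ → Set Ω) :
    Prop where
  measurable : ∀ i, MeasurableSet (E i)
  indep : iIndepSet E μ
  prob : ∀ i, 1 ≤ i → μ (E i) = ENNReal.ofReal (min 1 (1 / (i * Real.log 2)))

/-- The measure on `Bool` with mass `p i` at `true`. -/
noncomputable def coin (i : ℕ) : Measure Bool :=
  ENNReal.ofReal (min 1 (1 / (i * Real.log 2))) • Measure.dirac true +
    ENNReal.ofReal (1 - min 1 (1 / (i * Real.log 2))) • Measure.dirac false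

instance (i : ℕ) : IsProbabilityMeasure (coin i) := by
  constructor
  have h0 : 0 ≤ min 1 (1 / (i * Real.log 2)) := Q297.Lac.p_nonneg i
  have h1 : min 1 (1 / (i * Real.log 2)) ≤ 1 := min_le_left _ _
  simp only [coin, Measure.add_apply, Measure.smul_apply, measure_univ, smul_eq_mul, mul_one]
  rw [← ENNReal.ofReal_add h0 (by linarith)]
  simp

lemma model_exists : ∃ μ : Measure (ℕ → Bool), IsProbabilityMeasure μ ∧
    IsLacunaryModel μ (fun i => {x | x i = true}) := by
  refine ⟨Measure.infinitePi coin, inferInstance, ?_, ?_, ?_⟩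
  · intro i
    exact measurableSet_eq_fun (measurable_pi_apply i) measurable_const
  · have hf : iIndepFun (fun (i : ℕ) (x : ℕ → Bool) => x i) (Measure.infinitePi coin) :=
      iIndepFun_infinitePi (X := fun _ ω => ω) (fun _ => measurable_id)
    rw [iIndepSet_iff_meas_biInter
      (fun i => measurableSet_eq_fun (measurable_pi_apply i) measurable_const)]
    intro s
    exact hf.measure_inter_preimage_eq_mul s (sets := fun _ => {true})
      (fun _ _ => measurableSet_singleton _)
  · intro i _
    have h1 : (Measure.infinitePi coin).map (fun x => x i) = coin i :=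
      Measure.infinitePi_map_eval coin i
    have h2 : {x : ℕ → Bool | x i = true} = (fun x : ℕ → Bool => x i) ⁻¹' {true} := rfl
    rw [h2, ← Measure.map_apply (measurable_pi_apply i) (measurableSet_singleton _), h1]
    simp [coin]

/-- **The density asymptotics fail.**  The random lacunary model exists, and in every model,
almost surely `√(log n) * |Σ(A) ∩ [n]| / n` does not converge to any positive real number. -/
theorem result :
    (∃ μ : Measure (ℕ → Bool), IsProbabilityMeasure μ ∧
      IsLacunaryModel μ (fun i => {x | x i = true})) ∧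
    ∀ (Ω : Type*) [MeasurableSpace Ω] (μ : Measure Ω) [IsProbabilityMeasure μ] (E : ℕ → Set Ω),
      IsLacunaryModel μ E → ∀ᵐ ω ∂μ, ∀ C : ℝ, 0 < C →
        ¬ Tendsto (fun n : ℕ => √(Real.log n) *
          (((subsetSums (randomSet E ω) ∩ Set.Icc 1 n).ncard : ℝ) / n)) atTop (𝓝 C) := by
  refine ⟨model_exists, ?_⟩
  intro Ω _ μ _ E hE
  filter_upwards [Q297.Lac.ae_frequently hE.measurable hE.indep hE.prob] with ω hω C hC
  exact Q297.Lac.not_tendsto (c := Q297.Lac.cnt (randomSet E ω))
    (hω.mono (fun k hk => Q297.Lac.good_event_cnt hk)) hC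

end Pool.Agent.Results.MP_78f804_pr.NoDensity
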